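import Mathlib
import Pool.Agent.Lib_MP_65a48b_co.Defs

set_option autoImplicit false

/-!
# The first conjecture on odd wheels fails for `k = 2`

The join of a perfect matching on `2a` vertices and a perfect matching on `2a + 2` vertices is
`W_5`-free, has `m = 4a² + 6a + 1` edges (an odd number), and its spectral radius is
`1 + √(4a(a+1)) > (1 + √(4m-3))/2`.
-/

namespace Pool.Agent.Results.MP_65a48b_co.Q1FalseKTwo

open SimpleGraph Pool.Agent.Lib_MP_65a48b_co

/-- The bound `(k - 1 + √(4m - k² + 1))/2` of the first conjecture. -/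
noncomputable def bound (k m : ℕ) : ℝ := ((k : ℝ) - 1 + √(4 * (m : ℝ) - (k : ℝ) ^ 2 + 1)) / 2

/-- **Q1 fails for `k = 2`**: for infinitely many `m` with `m + k(k+1)/2 ≡ 0 (mod k)`, `k = 2`,
some `W_{2k+1}`-free graph with `m` edges (and no isolated vertices) has spectral radius larger
than `(k - 1 + √(4m - k² + 1))/2`. -/
theorem result : ∀ M : ℕ, ∃ m : ℕ, M ≤ m ∧ m + 2 * (2 + 1) / 2 ≡ 0 [MOD 2] ∧
    ∃ (V : Type) (_ : Fintype V) (G : SimpleGraph V), NoIsolated G ∧ G.edgeSet.ncard = m ∧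
      (wheel (2 * 2 + 1)).Free G ∧ bound 2 m < lam G := by
  intro M
  set a := M + 1 with ha
  refine ⟨4 * a * (a + 1) + a + (a + 1), by nlinarith, ?_, Fin a × Bool ⊕ Fin (a + 1) × Bool,
    inferInstance, join (match2 a) (match2 (a + 1)), noIsolated_match2_join _ _,
    ncard_match2_join _ _, match2_join_free _ _, ?_⟩
  · have : 4 * a * (a + 1) + a + (a + 1) + 2 * (2 + 1) / 2 = 2 * (2 * a * (a + 1) + a + 2) := by
      ring
    rw [this]
    exact (Nat.modEq_zero_iff_dvd).mpr (Dvd.intro _ rfl)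
  · refine lt_of_lt_of_le ?_ (le_lam_match2_join a (a + 1) (by omega) (by omega))
    have hapos : (0 : ℝ) < a := by rw [ha]; positivity
    unfold bound
    push_cast
    set r : ℝ := √(4 * (a : ℝ) * ((a : ℝ) + 1)) with hr
    have hr2 : r ^ 2 = 4 * (a : ℝ) * ((a : ℝ) + 1) := Real.sq_sqrt (by positivity)
    have hr0 : 0 ≤ r := Real.sqrt_nonneg _
    have hr3 : 2 * (a : ℝ) < r := by
      have : (2 * (a : ℝ)) ^ 2 < r ^ 2 := by rw [hr2]; nlinarith
      exact lt_of_pow_lt_pow_left₀ 2 hr0 this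
    have hlt : √(4 * (4 * (a : ℝ) * ((a : ℝ) + 1) + a + (a + 1)) - 2 ^ 2 + 1) < 1 + 2 * r := by
      rw [Real.sqrt_lt' (by positivity)]
      nlinarith
    generalize √(4 * (4 * (a : ℝ) * ((a : ℝ) + 1) + a + (a + 1)) - 2 ^ 2 + 1) = y at hlt ⊢
    linarith

end Pool.Agent.Results.MP_65a48b_co.Q1FalseKTwo
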