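import Mathlib
import Pool.Agent.Lib_MP_65a48b_co.Defs

set_option autoImplicit false

/-!
# The second conjecture on odd wheels fails for `k = 2`, `l = 1`

The join of two perfect matchings on `s = 2a` vertices is `W_5`-free, `(s+1)`-regular, has
`m = s(s+1)` edges, and its spectral radius `s + 1` is larger than that of `S^{1,1}_{n,2}`,
`n = (m+4)/2`.
-/

namespace Pool.Agent.Results.MP_65a48b_co.Q2FalseKTwo

open SimpleGraph Pool.Agent.Lib_MP_65a48b_co

open Classical in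
/-- Upper bound for the spectral radius of `S^{1,1}_{n,2}`, for `n = N + 3`. -/
lemma lam_S1_le (N : ℕ) (μ : ℝ) (hμ0 : 0 < μ) (hμ : μ ^ 2 - μ = 2 * N + 1) :
    lam (S1 1 (N + 3) 2) ≤ μ := by
  let x : Fin 1 ⊕ ((Fin (2 - 1) ⊕ Fin (N + 3 - 2 - 1)) ⊕ Fin 1) → ℝ :=
    Sum.elim (fun _ => μ) (Sum.elim (Sum.elim (fun _ => μ) (fun _ => 2)) (fun _ => 1))
  refine lam_le _ x ?_ μ hμ0.le ?_
  · rintro (v | (v | v) | v) <;> simp [x, hμ0]
  · have hcard : ((N + 3 - 2 - 1 : ℕ) : ℝ) = N := by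
      congr 1
    rintro (v | (v | v) | v)
    all_goals
      change ∑ q, ((S1 1 (N + 3) 2).adjMatrix ℝ) _ q * _ ≤ _
      rw [Fintype.sum_sum_type, Fintype.sum_sum_type, Fintype.sum_sum_type]
      simp only [adjMatrix_apply, x, Sum.elim_inl, Sum.elim_inr]
      simp only [S1, join_inl_inl, join_inl_inr, join_inr_inr, join_inr_inl,
        SimpleGraph.sum_adj, top_adj, bot_adj]
    · simp [Subsingleton.elim v 0]
      nlinarith
    · have hv : v = 0 := Subsingleton.elim (α := Fin 1) v 0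
      simp [hv]
      nlinarith
    · simp
      nlinarith
    · simp [Subsingleton.elim v 0]

/-- **Q2 fails for `k = 2`**: for infinitely many `m` with `m + k(k+1)/2 ≡ l (mod k)`, `k = 2`,
`l = 1`, some `W_{2k+1}`-free graph with `m` edges (and no isolated vertices) has spectral radius
larger than that of `S^{1,l}_{n,k}`, `n = (m-l)/k + (k+3)/2`. -/
theorem result : ∀ M : ℕ, ∃ m : ℕ, M ≤ m ∧ m + 2 * (2 + 1) / 2 ≡ 1 [MOD 2] ∧
    ∃ n : ℕ, (n : ℚ) = ((m : ℚ) - 1) / 2 + (2 + 3) / 2 ∧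
    ∃ (V : Type) (_ : Fintype V) (G : SimpleGraph V), NoIsolated G ∧ G.edgeSet.ncard = m ∧
      (wheel (2 * 2 + 1)).Free G ∧ lam (S1 1 n 2) < lam G := by
  intro M
  set a := M + 1 with ha
  have hapos : (0 : ℝ) < a := by rw [ha]; positivity
  refine ⟨4 * a * a + a + a, by nlinarith, ?_, 2 * a * a + a + 2, ?_, Fin a × Bool ⊕ Fin a × Bool,
    inferInstance, join (match2 a) (match2 a), noIsolated_match2_join _ _,
    ncard_match2_join _ _, match2_join_free _ _, ?_⟩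
  · have : 4 * a * a + a + a + 2 * (2 + 1) / 2 = 2 * (2 * a * a + a + 1) + 1 := by
      ring
    rw [this]
    unfold Nat.ModEq
    omega
  · push_cast
    ring
  · refine lt_of_lt_of_le ?_ (le_lam_match2_join a a (by omega) (by omega))
    have h1 : √(4 * (a : ℝ) * a) = 2 * a := by
      rw [show 4 * (a : ℝ) * a = (2 * a) ^ 2 by ring, Real.sqrt_sq (by positivity)]
    rw [h1]
    obtain ⟨N, hN⟩ : ∃ N, 2 * a * a + a + 2 = N + 3 := ⟨2 * a * a + a - 1, by
      have : 1 ≤ 2 * a * a + a := by nlinarith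
      omega⟩
    have hN' : (N : ℝ) = 2 * a * a + a - 1 := by
      have : ((2 * a * a + a + 2 : ℕ) : ℝ) = ((N + 3 : ℕ) : ℝ) := by rw [hN]
      push_cast at this
      linarith
    rw [hN]
    set μ : ℝ := (1 + √(16 * (a : ℝ) ^ 2 + 8 * a - 3)) / 2 with hμ
    have ha1 : (1 : ℝ) ≤ a := by
      rw [ha]; push_cast; linarith [Nat.cast_nonneg (α := ℝ) M]
    have hnn : 0 ≤ 16 * (a : ℝ) ^ 2 + 8 * a - 3 := by nlinarith
    have hsq : √(16 * (a : ℝ) ^ 2 + 8 * a - 3) ^ 2 = 16 * (a : ℝ) ^ 2 + 8 * a - 3 :=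
      Real.sq_sqrt hnn
    have hμ0 : 0 < μ := by
      rw [hμ]; positivity
    have hμ2 : μ ^ 2 - μ = 2 * N + 1 := by
      rw [hN', hμ]
      linear_combination (1 / 4 : ℝ) * hsq
    refine lt_of_le_of_lt (lam_S1_le N μ hμ0 hμ2) ?_
    have h2 : √(16 * (a : ℝ) ^ 2 + 8 * a - 3) < 1 + 4 * a := by
      rw [Real.sqrt_lt' (by positivity)]
      nlinarith
    rw [hμ]
    linarith

end Pool.Agent.Results.MP_65a48b_co.Q2FalseKTwo
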